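import Mathlib

/-!
Branching random walks on the integer lattice and the two-type competition model (parameter p = 0)
of problem MP_1cd8c4_pr: definitions.
-/

open MeasureTheory ProbabilityTheory Filter Topology
open scoped ENNReal Pointwise

namespace Pool.Agent.BRW

/-- A reproduction law in dimension `d`: an offspring distribution `μ` on `{1,2,...}` with mean
greater than `1`, and a displacement law `ν` whose support is exactly the finite set `K`, which
contains the `2d` nearest neighbours of the origin. -/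
structure ReproLaw (d : ℕ) where
  μ : PMF ℕ
  ν : PMF (Fin d → ℤ)
  K : Finset (Fin d → ℤ)
  μ_zero : μ 0 = 0
  one_lt_mean : 1 < ∑' n : ℕ, (n : ℝ≥0∞) * μ n
  nearest_mem : ∀ i : Fin d, (Pi.single i 1 : Fin d → ℤ) ∈ K ∧ (Pi.single i (-1) : Fin d → ℤ) ∈ K
  support_eq : ν.support = (K : Set (Fin d → ℤ))

/-- Environments. Particles carry Ulam-Harris labels `v : List ℕ` (the root is `[]`, and
`i :: v` is the particle reached from child `i` of the root by following `v`). For a label `v`,
`(ω v).1` is the number of children of `v` and `(ω v).2` is the displacement of `v` from its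
parent (the value `(ω []).2` plays no role). -/
abbrev Env (d : ℕ) : Type := List ℕ → ℕ × (Fin d → ℤ)

/-- The environment of the subtree of child `i` of the root. -/
def sub {d : ℕ} (ω : Env d) (i : ℕ) : Env d := fun w => ω (i :: w)

/-- The label `v` is the label of a particle that is really born. -/
def Alive {d : ℕ} : Env d → List ℕ → Prop
  | _, [] => True
  | ω, i :: v => i < (ω []).1 ∧ Alive (sub ω i) v

/-- The position of the particle `v` if the root is placed at `x`. -/
def pos {d : ℕ} : Env d → (Fin d → ℤ) → List ℕ → (Fin d → ℤ)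
  | _, x, [] => x
  | ω, x, i :: v => pos (sub ω i) (x + (ω [i]).2) v

/-- The law of the environment: all labels carry independent draws from `μ` and `ν`. -/
noncomputable def envLaw {d : ℕ} (R : ReproLaw d) : Measure (Env d) :=
  Measure.infinitePi (fun _ : List ℕ => R.μ.toMeasure.prod R.ν.toMeasure)

/-- At time `n` there is a particle at site `x` (for the walk started from one particle at
`x₀`). -/
def Occupied {d : ℕ} (ω : Env d) (x₀ : Fin d → ℤ) (n : ℕ) (x : Fin d → ℤ) : Prop :=
  ∃ v : List ℕ, v.length = n ∧ Alive ω v ∧ pos ω x₀ v = x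

/-- The set of sites that have received a particle by time `n`. -/
def visited {d : ℕ} (ω : Env d) (x₀ : Fin d → ℤ) (n : ℕ) : Set (Fin d → ℤ) :=
  {x | ∃ t ≤ n, Occupied ω x₀ t x}

/-- The union of the half-open unit cubes around the sites visited by time `n`. -/
def filled {d : ℕ} (ω : Env d) (n : ℕ) : Set (Fin d → ℝ) :=
  {y | ∃ x ∈ visited ω 0 n, ∀ i, (x i : ℝ) - 1 / 2 < y i ∧ y i ≤ (x i : ℝ) + 1 / 2}

/-- `A` is the asymptotic shape of the branching random walk with law `R`. -/
def IsShape {d : ℕ} (R : ReproLaw d) (A : Set (Fin d → ℝ)) : Prop :=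
  Convex ℝ A ∧ IsCompact A ∧ (0 : Fin d → ℝ) ∈ interior A ∧
    ∀ᵐ ω ∂(envLaw R), ∀ ε : ℝ, 0 < ε → ε < 1 → ∀ᶠ n : ℕ in atTop,
      (1 - ε) • A ⊆ (n : ℝ)⁻¹ • filled ω n ∧ (n : ℝ)⁻¹ • filled ω n ⊆ (1 + ε) • A

/-- The first time at which site `x` receives a particle (`⊤` if never). -/
noncomputable def hit {d : ℕ} (ω : Env d) (x₀ x : Fin d → ℤ) : ℕ∞ :=
  ⨅ (n : ℕ) (_ : Occupied ω x₀ n x), (n : ℕ∞)

/-- The site `e₁ = (1, 0, ..., 0)`. -/
def e₁ (d : ℕ) : Fin (d + 1) → ℤ := Pi.single 0 1

/-- The law of the two-type process with `p = 0`: two independent environments, the first one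
for the red walk, started at the origin, the second one for the blue walk, started at `e₁`. -/
noncomputable def twoTypeLaw {d : ℕ} (Rr Rb : ReproLaw (d + 1)) :
    Measure (Env (d + 1) × Env (d + 1)) :=
  (envLaw Rr).prod (envLaw Rb)

/-- The sites that are coloured red: red arrives first, or both colours arrive simultaneously
and the tie is resolved in favour of red (`tie x = true`). -/
def RedSites {d : ℕ} (ω : Env (d + 1) × Env (d + 1)) (tie : (Fin (d + 1) → ℤ) → Bool) :
    Set (Fin (d + 1) → ℤ) :=
  {x | hit ω.1 0 x < hit ω.2 (e₁ d) x ∨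
    (hit ω.1 0 x = hit ω.2 (e₁ d) x ∧ hit ω.1 0 x ≠ ⊤ ∧ tie x = true)}

/-- The sites that are coloured blue. -/
def BlueSites {d : ℕ} (ω : Env (d + 1) × Env (d + 1)) (tie : (Fin (d + 1) → ℤ) → Bool) :
    Set (Fin (d + 1) → ℤ) :=
  {x | hit ω.2 (e₁ d) x < hit ω.1 0 x ∨
    (hit ω.1 0 x = hit ω.2 (e₁ d) x ∧ hit ω.1 0 x ≠ ⊤ ∧ tie x = false)}

/-- Coexistence: both colours occupy infinitely many sites. -/
def Coexist {d : ℕ} (ω : Env (d + 1) × Env (d + 1)) (tie : (Fin (d + 1) → ℤ) → Bool) : Prop :=
  (RedSites ω tie).Infinite ∧ (BlueSites ω tie).Infinite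

end Pool.Agent.BRW
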