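import Mathlib
import Pool.Agent.BRW.Defs

open MeasureTheory ProbabilityTheory Filter Topology
open scoped ENNReal Pointwise

namespace Pool.Agent.BRW

section Glue

variable {α : Type*} [MeasurableSpace α]

/-- Glue a root value and a family of sub-environments. -/
def glue (p : α × (ℕ → List ℕ → α)) : List ℕ → α
  | [] => p.1
  | i :: w => p.2 i w

lemma measurable_glue : Measurable (glue : α × (ℕ → List ℕ → α) → List ℕ → α) := by
  refine measurable_pi_lambda _ fun v => ?_
  cases v with
  | nil => exact measurable_fst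
  | cons i w => exact (measurable_pi_apply w).comp ((measurable_pi_apply i).comp measurable_snd)

/-- The labels of `s` in the subtree of child `i`. -/
noncomputable def kids (s : Finset (List ℕ)) (i : ℕ) : Finset (List ℕ) :=
  s.preimage (fun w => i :: w) (by intro a _ b _ h; simpa using h)

lemma mem_kids (s : Finset (List ℕ)) (i : ℕ) (w : List ℕ) : w ∈ kids s i ↔ i :: w ∈ s :=
  Finset.mem_preimage

lemma prod_list_split {M : Type*} [CommMonoid M] (s : Finset (List ℕ)) (f : List ℕ → M) (N : ℕ)
    (hN : ∀ i w, i :: w ∈ s → i < N) :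
    ∏ v ∈ s, f v = (if [] ∈ s then f [] else 1) *
      ∏ i ∈ Finset.range N, ∏ w ∈ kids s i, f (i :: w) := by
  classical
  have h1 : ∏ v ∈ s, f v = (∏ v ∈ s.filter (fun v => v = []), f v) *
      ∏ v ∈ s.filter (fun v => ¬ v = []), f v :=
    (Finset.prod_filter_mul_prod_filter_not s _ f).symm
  rw [h1]
  congr 1
  · split_ifs with h
    · have : s.filter (fun v => v = []) = {[]} := by
        ext v; simp only [Finset.mem_filter, Finset.mem_singleton]
        constructor
        · rintro ⟨_, h⟩; exact h
        · rintro rfl; exact ⟨h, rfl⟩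
      rw [this, Finset.prod_singleton]
    · have : s.filter (fun v => v = []) = ∅ := by
        ext v; simp only [Finset.mem_filter, Finset.notMem_empty, iff_false]
        rintro ⟨h', rfl⟩; exact h h'
      rw [this, Finset.prod_empty]
  · rw [Finset.prod_sigma']
    symm
    refine Finset.prod_bij' (i := fun p _ => p.1 :: p.2)
      (j := fun v _ => ⟨v.headI, v.tail⟩) ?_ ?_ ?_ ?_ ?_
    · rintro ⟨i, w⟩ h
      simp only [Finset.mem_sigma, Finset.mem_range, mem_kids] at h
      simp [h.2]
    · intro v h
      simp only [Finset.mem_filter] at h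
      obtain ⟨h1, h2⟩ := h
      cases v with
      | nil => exact absurd rfl h2
      | cons i w =>
        simp only [Finset.mem_sigma, Finset.mem_range, mem_kids]
        exact ⟨hN i w h1, h1⟩
    · rintro ⟨i, w⟩ h; rfl
    · intro v h
      simp only [Finset.mem_filter] at h
      cases v with
      | nil => exact absurd rfl h.2
      | cons i w => rfl
    · rintro ⟨i, w⟩ h; rfl

lemma glue_map (m : Measure α) [IsProbabilityMeasure m] :
    (m.prod (Measure.infinitePi (fun _ : ℕ =>
      Measure.infinitePi (fun _ : List ℕ => m)))).map glue =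
      Measure.infinitePi (fun _ : List ℕ => m) := by
  classical
  refine Measure.eq_infinitePi _ fun s t ht => ?_
  obtain ⟨N, hN⟩ : ∃ N : ℕ, ∀ i w, i :: w ∈ s → i < N := by
    refine ⟨(s.image List.headI).sup id + 1, fun i w h => ?_⟩
    have : i ∈ s.image List.headI := Finset.mem_image.2 ⟨i :: w, h, rfl⟩
    exact Nat.lt_succ_of_le (Finset.le_sup (f := id) this)
  have hpre : glue ⁻¹' (Set.pi (s : Set (List ℕ)) t) =
      (if [] ∈ s then t [] else Set.univ) ×ˢ
      (Set.pi (Finset.range N : Set ℕ) (fun i =>
        Set.pi (kids s i : Set (List ℕ)) (fun w => t (i :: w)))) := by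
    ext ⟨r, g⟩
    simp only [Set.mem_preimage, Set.mem_pi, Finset.mem_coe, Set.mem_prod, Finset.mem_range,
      mem_kids]
    constructor
    · intro h
      refine ⟨?_, fun i _ w hw => h (i :: w) hw⟩
      split_ifs with h0
      · exact h [] h0
      · trivial
    · rintro ⟨h1, h2⟩ v hv
      cases v with
      | nil => rw [if_pos hv] at h1; exact h1
      | cons i w => exact h2 i (hN i w hv) w hv
  rw [Measure.map_apply measurable_glue (.pi s.countable_toSet fun _ _ => ht _), hpre,
    Measure.prod_prod, Measure.infinitePi_pi _ (fun i _ =>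
      MeasurableSet.pi (Finset.countable_toSet _) fun _ _ => ht _),
    prod_list_split s (fun v => m (t v)) N hN]
  congr 1
  · split_ifs <;> simp
  · refine Finset.prod_congr rfl fun i _ => ?_
    rw [Measure.infinitePi_pi _ (fun w _ => ht _)]

end Glue

section Env

variable {d : ℕ} (R : ReproLaw d)

instance : IsProbabilityMeasure (envLaw R) := by
  unfold envLaw; infer_instance

lemma measurable_sub (i : ℕ) : Measurable (fun ω : Env d => sub ω i) :=
  measurable_pi_lambda _ fun w => measurable_pi_apply (i :: w)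

lemma envLaw_box (B : Set (ℕ × (Fin d → ℤ))) (k : ℕ) {G : ℕ → Set (Env d)}
    (hG : ∀ i, MeasurableSet (G i)) :
    envLaw R {ω | ω [] ∈ B ∧ ∀ i < k, sub ω i ∈ G i} =
      (R.μ.toMeasure.prod R.ν.toMeasure) B * ∏ i ∈ Finset.range k, envLaw R (G i) := by
  have hB : MeasurableSet B := MeasurableSet.of_discrete
  have hS : MeasurableSet {ω : Env d | ω [] ∈ B ∧ ∀ i < k, sub ω i ∈ G i} := by
    have h1 : MeasurableSet {ω : Env d | ω [] ∈ B} := measurable_pi_apply [] hB
    have h2 : MeasurableSet {ω : Env d | ∀ i < k, sub ω i ∈ G i} := by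
      have : {ω : Env d | ∀ i < k, sub ω i ∈ G i} = ⋂ i : ℕ, ⋂ (_ : i < k), {ω | sub ω i ∈ G i} := by
        ext ω; simp
      rw [this]
      exact MeasurableSet.iInter fun i => MeasurableSet.iInter fun _ => measurable_sub i (hG i)
    exact h1.inter h2
  have h := glue_map (R.μ.toMeasure.prod R.ν.toMeasure)
  unfold envLaw
  conv_lhs => rw [← h]
  rw [Measure.map_apply measurable_glue hS]
  have : (glue ⁻¹' {ω : Env d | ω [] ∈ B ∧ ∀ i < k, sub ω i ∈ G i}) =
      B ×ˢ (Set.pi (Finset.range k : Set ℕ) G) := by
    ext ⟨r, g⟩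
    simp only [Set.mem_preimage, Set.mem_ofPred_eq, Set.mem_prod, Set.mem_pi, Finset.coe_range,
      Set.mem_Iio]
    rfl
  rw [this, Measure.prod_prod, Measure.infinitePi_pi _ (fun i _ => hG i)]

/-- The branching formula. -/
lemma envLaw_branch (B : Set (Fin d → ℤ)) {G : Set (Env d)} (hG : MeasurableSet G) :
    envLaw R {ω | (ω []).2 ∈ B ∧ ∀ i < (ω []).1, sub ω i ∈ G} =
      R.ν.toMeasure B * ∑' k, R.μ k * envLaw R G ^ k := by
  have hU : {ω : Env d | (ω []).2 ∈ B ∧ ∀ i < (ω []).1, sub ω i ∈ G} =
      ⋃ k : ℕ, {ω : Env d | ω [] ∈ ({k} : Set ℕ) ×ˢ B ∧ ∀ i < k, sub ω i ∈ G} := by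
    ext ω
    simp only [Set.mem_ofPred_eq, Set.mem_iUnion, Set.mem_prod, Set.mem_singleton_iff]
    constructor
    · rintro ⟨h1, h2⟩; exact ⟨_, ⟨rfl, h1⟩, h2⟩
    · rintro ⟨k, ⟨rfl, h1⟩, h2⟩; exact ⟨h1, h2⟩
  rw [hU, measure_iUnion]
  · rw [← ENNReal.tsum_mul_left]
    refine tsum_congr fun k => ?_
    rw [envLaw_box R _ k (G := fun _ => G) (fun _ => hG), Measure.prod_prod,
      PMF.toMeasure_apply_singleton _ _ (measurableSet_singleton k), Finset.prod_const,
      Finset.card_range]
    ring
  · intro a b hab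
    rw [Function.onFun, Set.disjoint_left]
    rintro ω ⟨h1, _⟩ ⟨h2, _⟩
    simp only [Set.mem_prod, Set.mem_singleton_iff] at h1 h2
    exact hab (h1.1.symm.trans h2.1)
  · intro k
    have h1 : MeasurableSet {ω : Env d | ω [] ∈ ({k} : Set ℕ) ×ˢ B} :=
      measurable_pi_apply [] MeasurableSet.of_discrete
    have h2 : MeasurableSet {ω : Env d | ∀ i < k, sub ω i ∈ G} := by
      have : {ω : Env d | ∀ i < k, sub ω i ∈ G} = ⋂ i : ℕ, ⋂ (_ : i < k), {ω | sub ω i ∈ G} := by
        ext ω; simp
      rw [this]
      exact MeasurableSet.iInter fun i => MeasurableSet.iInter fun _ => measurable_sub i hG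
    exact h1.inter h2

/-- The sub-environment at label `v`. -/
def subAt (ω : Env d) (v : List ℕ) : Env d := fun w => ω (v ++ w)

lemma measurePreserving_sub (i : ℕ) :
    MeasurePreserving (fun ω : Env d => sub ω i) (envLaw R) (envLaw R) := by
  refine ⟨measurable_sub i, ?_⟩
  ext S hS
  rw [Measure.map_apply (measurable_sub i) hS]
  have h := envLaw_box R Set.univ (i + 1) (G := fun j => if j = i then S else Set.univ)
    (fun j => by split_ifs <;> [exact hS; exact MeasurableSet.univ])
  rw [measure_univ, one_mul, Finset.prod_range_succ] at h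
  have h2 : ∏ x ∈ Finset.range i, envLaw R (if x = i then S else Set.univ) = 1 := by
    refine Finset.prod_eq_one fun x hx => ?_
    rw [if_neg (by have := Finset.mem_range.1 hx; omega), measure_univ]
  rw [h2, if_pos rfl, one_mul] at h
  rw [← h]
  congr 1
  ext ω
  simp only [Set.mem_preimage, Set.mem_ofPred_eq, Set.mem_univ, true_and]
  constructor
  · intro h j hj
    split_ifs with hji
    · rw [hji]; exact h
    · trivial
  · intro h
    have := h i (by omega)
    simpa using this

lemma measurePreserving_subAt (v : List ℕ) :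
    MeasurePreserving (fun ω : Env d => subAt ω v) (envLaw R) (envLaw R) := by
  induction v with
  | nil =>
    have : (fun ω : Env d => subAt ω []) = id := by
      funext ω; rfl
    rw [this]; exact MeasurePreserving.id _
  | cons i v ih =>
    exact ih.comp (measurePreserving_sub R i)

end Env

end Pool.Agent.BRW
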