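import Mathlib
import Pool.Agent.BRW.Branching

open MeasureTheory ProbabilityTheory Filter Topology
open scoped ENNReal Pointwise

namespace Pool.Agent.BRW

section General

variable {d : ℕ}

/-- All children of the root have their sub-environment in `G`. -/
def allKids (G : Set (Env d)) : Set (Env d) := {ω | ∀ i < (ω []).1, sub ω i ∈ G}

lemma measurableSet_allKids {G : Set (Env d)} (hG : MeasurableSet G) :
    MeasurableSet (allKids G) := by
  have hU : allKids G =
      ⋃ k : ℕ, ({ω : Env d | (ω []).1 = k} ∩ ⋂ i : ℕ, ⋂ (_ : i < k), {ω | sub ω i ∈ G}) := by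
    ext ω
    simp [allKids]
  rw [hU]
  refine MeasurableSet.iUnion fun k => MeasurableSet.inter ?_ ?_
  · have : {ω : Env d | (ω []).1 = k} = (fun ω : Env d => ω []) ⁻¹' {p | p.1 = k} := rfl
    rw [this]
    exact measurable_pi_apply [] MeasurableSet.of_discrete
  · exact MeasurableSet.iInter fun i => MeasurableSet.iInter fun _ => measurable_sub i hG

lemma measurable_root_snd (B : Set (Fin d → ℤ)) :
    MeasurableSet {ω : Env d | (ω []).2 ∈ B} := by
  have : {ω : Env d | (ω []).2 ∈ B} = (fun ω : Env d => ω []) ⁻¹' {p | p.2 ∈ B} := rfl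
  rw [this]
  exact measurable_pi_apply [] MeasurableSet.of_discrete

/-- Events that are independent of the displacement attached to the root. -/
def RootFree (R : ReproLaw d) (X : Set (Env d)) : Prop :=
  ∀ B : Set (Fin d → ℤ), envLaw R {ω | (ω []).2 ∈ B ∧ ω ∈ X} = R.ν.toMeasure B * envLaw R X

lemma rootFree_allKids (R : ReproLaw d) {G : Set (Env d)} (hG : MeasurableSet G) :
    RootFree R (allKids G) := by
  intro B
  have h1 := envLaw_branch R B hG
  have h2 := envLaw_branch R Set.univ hG
  rw [measure_univ, one_mul] at h2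
  have e1 : {ω : Env d | (ω []).2 ∈ B ∧ ω ∈ allKids G} =
      {ω : Env d | (ω []).2 ∈ B ∧ ∀ i < (ω []).1, sub ω i ∈ G} := rfl
  have e2 : allKids G = {ω : Env d | (ω []).2 ∈ Set.univ ∧ ∀ i < (ω []).1, sub ω i ∈ G} := by
    ext ω; simp [allKids]
  rw [e1, h1, e2, h2]

lemma rootFree_empty (R : ReproLaw d) : RootFree R (∅ : Set (Env d)) := by
  intro B; simp

lemma rootFree_univ (R : ReproLaw d) : RootFree R (Set.univ : Set (Env d)) := by
  intro B
  have := envLaw_box R {p : ℕ × (Fin d → ℤ) | p.2 ∈ B} 0 (G := fun _ => Set.univ)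
    (fun _ => MeasurableSet.univ)
  have e : {p : ℕ × (Fin d → ℤ) | p.2 ∈ B} = Set.univ ×ˢ B := by ext; simp
  rw [e, Measure.prod_prod, measure_univ, one_mul, Finset.range_zero, Finset.prod_empty,
    mul_one] at this
  rw [measure_univ, mul_one, ← this]
  congr 1
  ext ω; simp

lemma envLaw_allKids (R : ReproLaw d) {G : Set (Env d)} (hG : MeasurableSet G) :
    envLaw R (allKids G) = ∑' k, R.μ k * envLaw R G ^ k := by
  have h2 := envLaw_branch R Set.univ hG
  rw [measure_univ, one_mul] at h2
  have e2 : allKids G = {ω : Env d | (ω []).2 ∈ Set.univ ∧ ∀ i < (ω []).1, sub ω i ∈ G} := by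
    ext ω; simp [allKids]
  rw [e2, h2]

lemma alive_append (ω : Env d) (v w : List ℕ) :
    Alive ω (v ++ w) ↔ Alive ω v ∧ Alive (subAt ω v) w := by
  induction v generalizing ω with
  | nil => exact ⟨fun h => ⟨trivial, h⟩, fun h => h.2⟩
  | cons i v ih =>
    have : Alive ω (i :: v ++ w) ↔ i < (ω []).1 ∧ Alive (sub ω i) (v ++ w) := Iff.rfl
    rw [this, ih]
    have h2 : Alive ω (i :: v) ↔ i < (ω []).1 ∧ Alive (sub ω i) v := Iff.rfl
    rw [h2, and_assoc]
    rfl

lemma pos_append (ω : Env d) (x : Fin d → ℤ) (v w : List ℕ) :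
    pos ω x (v ++ w) = pos (subAt ω v) (pos ω x v) w := by
  induction v generalizing ω x with
  | nil => rfl
  | cons i v ih =>
    have : pos ω x (i :: v ++ w) = pos (sub ω i) (x + (ω [i]).2) (v ++ w) := rfl
    rw [this, ih]
    rfl

lemma measurableSet_alive (v : List ℕ) : MeasurableSet {ω : Env d | Alive ω v} := by
  induction v with
  | nil => simp [Alive]
  | cons i v ih =>
    have : {ω : Env d | Alive ω (i :: v)} =
        ((fun ω : Env d => ω []) ⁻¹' {p | i < p.1}) ∩
        ((fun ω : Env d => sub ω i) ⁻¹' {ω | Alive ω v}) := rfl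
    rw [this]
    exact (measurable_pi_apply [] MeasurableSet.of_discrete).inter (measurable_sub i ih)

lemma measurable_subAt (v : List ℕ) : Measurable (fun ω : Env d => subAt ω v) :=
  measurable_pi_lambda _ fun w => measurable_pi_apply (v ++ w)

/-- No living particle has its sub-environment in `X`. -/
def never (X : Set (Env d)) : Set (Env d) := {ω | ∀ v, Alive ω v → subAt ω v ∉ X}

lemma measurableSet_never {X : Set (Env d)} (hX : MeasurableSet X) : MeasurableSet (never X) := by
  have : never X = ⋂ v : List ℕ, ({ω : Env d | Alive ω v} ∩ {ω | subAt ω v ∈ X})ᶜ := by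
    ext ω
    simp [never]
  rw [this]
  exact MeasurableSet.iInter fun v =>
    ((measurableSet_alive v).inter (measurable_subAt v hX)).compl

lemma never_subset (X : Set (Env d)) : never X ⊆ allKids (never X) := by
  intro ω h i hi v hv
  have := h (i :: v) ⟨hi, hv⟩
  exact this

lemma never_subset_compl (X : Set (Env d)) : never X ⊆ Xᶜ := by
  intro ω h
  exact h [] trivial

end General

section Walk

/-- Nearest-neighbour displacement on the line, uniform on the two unit vectors. -/
noncomputable def coin : PMF (Fin 1 → ℤ) :=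
  PMF.uniformOfFinset {(Pi.single 0 1 : Fin 1 → ℤ), (Pi.single 0 (-1) : Fin 1 → ℤ)}
    (Finset.insert_nonempty _ _)

/-- The law with `m ≥ 2` children per particle and nearest-neighbour symmetric displacements. -/
noncomputable def walkLaw (m : ℕ) (hm : 2 ≤ m) : ReproLaw 1 where
  μ := PMF.pure m
  ν := coin
  K := {(Pi.single 0 1 : Fin 1 → ℤ), (Pi.single 0 (-1) : Fin 1 → ℤ)}
  μ_zero := by
    rw [PMF.pure_apply, if_neg (by omega)]
  one_lt_mean := by
    rw [tsum_eq_single m]
    · rw [PMF.pure_apply, if_pos rfl, mul_one]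
      exact_mod_cast (by omega : 1 < m)
    · intro n hn
      rw [PMF.pure_apply, if_neg hn, mul_zero]
  nearest_mem := by
    intro i
    have : i = 0 := Subsingleton.elim _ _
    subst this
    simp
  support_eq := by
    rw [coin, PMF.support_uniformOfFinset]

lemma coin_half (s : ℤ) (hs : s = 1 ∨ s = -1) :
    coin.toMeasure {y : Fin 1 → ℤ | y 0 = s} = 1 / 2 := by
  rw [coin, PMF.toMeasure_uniformOfFinset_apply _ _ MeasurableSet.of_discrete]
  have hne : (Pi.single 0 1 : Fin 1 → ℤ) ≠ (Pi.single 0 (-1) : Fin 1 → ℤ) := by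
    intro h
    have := congrFun h 0
    simp at this
  have hc : ({(Pi.single 0 1 : Fin 1 → ℤ), (Pi.single 0 (-1) : Fin 1 → ℤ)} :
      Finset (Fin 1 → ℤ)).card = 2 := Finset.card_pair hne
  rw [hc]
  have hf : ∀ (inst : DecidablePred fun x : Fin 1 → ℤ => x ∈ {y : Fin 1 → ℤ | y 0 = s}),
      (@Finset.filter _ (fun x : Fin 1 → ℤ => x ∈ {y : Fin 1 → ℤ | y 0 = s}) inst
        {(Pi.single 0 1 : Fin 1 → ℤ), (Pi.single 0 (-1) : Fin 1 → ℤ)}).card = 1 := by
    intro inst
    rw [Finset.card_eq_one]
    refine ⟨Pi.single 0 s, ?_⟩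
    ext y
    simp only [Finset.mem_filter, Finset.mem_insert, Finset.mem_singleton, Set.mem_ofPred_eq]
    constructor
    · rintro ⟨h1, h2⟩
      rw [← h2]
      ext j
      have : j = 0 := Subsingleton.elim _ _
      subst this
      simp
    · rintro rfl
      rcases hs with rfl | rfl <;> simp
  rw [hf]
  norm_num

lemma walkLaw_pow (m : ℕ) (hm : 2 ≤ m) (x : ℝ≥0∞) :
    ∑' k, (walkLaw m hm).μ k * x ^ k = x ^ m := by
  rw [tsum_eq_single m]
  · show (PMF.pure m) m * x ^ m = x ^ m
    rw [PMF.pure_apply, if_pos rfl, one_mul]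
  · intro n hn
    show (PMF.pure m) n * x ^ n = 0
    rw [PMF.pure_apply, if_neg hn, zero_mul]

end Walk

end Pool.Agent.BRW
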