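import Mathlib
import Pool.Agent.BRW.Walk

open MeasureTheory ProbabilityTheory Filter Topology
open scoped ENNReal Pointwise

namespace Pool.Agent.BRW

section Prob

variable (m : ℕ) (hm : 2 ≤ m)

/-- The event distinguishing the displacement attached to the root. -/
def mix (s : ℤ) (X Y : Set (Env 1)) : Set (Env 1) :=
  {η | ((η []).2 0 = s → η ∈ X) ∧ ((η []).2 0 ≠ s → η ∈ Y)}

lemma mix_mono {s : ℤ} {X Y X' Y' : Set (Env 1)} (h1 : X ⊆ X') (h2 : Y ⊆ Y') :
    mix s X Y ⊆ mix s X' Y' := fun _ h => ⟨fun h' => h1 (h.1 h'), fun h' => h2 (h.2 h')⟩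

lemma mix_eq (s : ℤ) (X Y : Set (Env 1)) :
    mix s X Y = {η | (η []).2 ∈ {y : Fin 1 → ℤ | y 0 = s} ∧ η ∈ X} ∪
      {η | (η []).2 ∈ {y : Fin 1 → ℤ | y 0 = s}ᶜ ∧ η ∈ Y} := by
  ext η
  simp only [mix, Set.mem_ofPred_eq, Set.mem_union, Set.mem_compl_iff]
  by_cases h : (η []).2 0 = s <;> simp [h]

lemma measurableSet_mix (s : ℤ) {X Y : Set (Env 1)} (hX : MeasurableSet X)
    (hY : MeasurableSet Y) : MeasurableSet (mix s X Y) := by
  rw [mix_eq]
  exact ((measurable_root_snd {y : Fin 1 → ℤ | y 0 = s}).inter hX).union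
    ((measurable_root_snd {y : Fin 1 → ℤ | y 0 = s}ᶜ).inter hY)

lemma coin_half_compl (s : ℤ) (hs : s = 1 ∨ s = -1) :
    coin.toMeasure {y : Fin 1 → ℤ | y 0 = s}ᶜ = 1 / 2 := by
  rw [prob_compl_eq_one_sub MeasurableSet.of_discrete, coin_half s hs]
  norm_num

lemma envLaw_mix (s : ℤ) (hs : s = 1 ∨ s = -1) {X Y : Set (Env 1)}
    (hY : MeasurableSet Y) (fX : RootFree (walkLaw m hm) X) (fY : RootFree (walkLaw m hm) Y) :
    envLaw (walkLaw m hm) (mix s X Y) =
      (envLaw (walkLaw m hm) X + envLaw (walkLaw m hm) Y) / 2 := by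
  rw [mix_eq, measure_union]
  · rw [fX, fY]
    have h1 : (walkLaw m hm).ν.toMeasure {y : Fin 1 → ℤ | y 0 = s} = 1 / 2 := coin_half s hs
    have h2 : (walkLaw m hm).ν.toMeasure {y : Fin 1 → ℤ | y 0 = s}ᶜ = 1 / 2 :=
      coin_half_compl s hs
    rw [h1, h2, ← mul_add, mul_comm, ENNReal.div_eq_inv_mul, ENNReal.div_eq_inv_mul, mul_one,
      mul_comm]
  · rw [Set.disjoint_left]
    rintro η ⟨h1, _⟩ ⟨h2, _⟩
    exact h2 h1
  · exact (measurable_root_snd {y : Fin 1 → ℤ | y 0 = s}ᶜ).inter hY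

/-- Real-valued probabilities. -/
noncomputable def pr (X : Set (Env 1)) : ℝ := (envLaw (walkLaw m hm) X).toReal

lemma pr_nonneg (X : Set (Env 1)) : 0 ≤ pr m hm X := ENNReal.toReal_nonneg

lemma pr_le_one (X : Set (Env 1)) : pr m hm X ≤ 1 := by
  have : envLaw (walkLaw m hm) X ≤ 1 := prob_le_one
  have := ENNReal.toReal_mono ENNReal.one_ne_top this
  simpa [pr] using this

lemma pr_univ : pr m hm Set.univ = 1 := by simp [pr]

lemma pr_empty : pr m hm ∅ = 0 := by simp [pr]

lemma pr_allKids {G : Set (Env 1)} (hG : MeasurableSet G) :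
    pr m hm (allKids G) = pr m hm G ^ m := by
  rw [pr, envLaw_allKids _ hG, walkLaw_pow, ENNReal.toReal_pow, pr]

lemma pr_mix (s : ℤ) (hs : s = 1 ∨ s = -1) {X Y : Set (Env 1)}
    (hY : MeasurableSet Y) (fX : RootFree (walkLaw m hm) X) (fY : RootFree (walkLaw m hm) Y) :
    pr m hm (mix s X Y) = (pr m hm X + pr m hm Y) / 2 := by
  rw [pr, envLaw_mix m hm s hs hY fX fY, ENNReal.toReal_div, ENNReal.toReal_add
    (measure_ne_top _ _) (measure_ne_top _ _)]
  rfl

/-- There is no line of `n` moves equal to `s` starting from the root. -/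
def nol (s : ℤ) : ℕ → Set (Env 1)
  | 0 => ∅
  | n + 1 => allKids (mix s (nol s n) Set.univ)

/-- There is no line of `n` moves with credit `c` starting from the root: a move equal to `s`
increases the credit by one, any other move costs `k`; the credit must stay nonnegative. -/
def bad (s : ℤ) (k : ℕ) : ℕ → ℕ → Set (Env 1)
  | 0, _ => ∅
  | n + 1, c => allKids (mix s (bad s k n (c + 1)) (if k ≤ c then bad s k n (c - k) else Set.univ))

lemma measurableSet_nol (s : ℤ) (n : ℕ) : MeasurableSet (nol s n) := by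
  induction n with
  | zero => exact MeasurableSet.empty
  | succ n ih => exact measurableSet_allKids (measurableSet_mix s ih MeasurableSet.univ)

lemma measurableSet_bad (s : ℤ) (k n c : ℕ) : MeasurableSet (bad s k n c) := by
  induction n generalizing c with
  | zero => exact MeasurableSet.empty
  | succ n ih =>
    refine measurableSet_allKids (measurableSet_mix s (ih _) ?_)
    split_ifs
    · exact ih _
    · exact MeasurableSet.univ

lemma rootFree_nol (s : ℤ) (n : ℕ) : RootFree (walkLaw m hm) (nol s n) := by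
  cases n with
  | zero => exact rootFree_empty _
  | succ n =>
    exact rootFree_allKids _ (measurableSet_mix s (measurableSet_nol s n) MeasurableSet.univ)

lemma measurableSet_bad' (s : ℤ) (k n c : ℕ) :
    MeasurableSet (if k ≤ c then bad s k n (c - k) else Set.univ) := by
  split_ifs
  · exact measurableSet_bad _ _ _ _
  · exact MeasurableSet.univ

lemma rootFree_bad (s : ℤ) (k n c : ℕ) : RootFree (walkLaw m hm) (bad s k n c) := by
  cases n with
  | zero => exact rootFree_empty _
  | succ n =>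
    exact rootFree_allKids _ (measurableSet_mix s (measurableSet_bad s k n _)
      (measurableSet_bad' s k n c))

lemma rootFree_bad' (s : ℤ) (k n c : ℕ) :
    RootFree (walkLaw m hm) (if k ≤ c then bad s k n (c - k) else Set.univ) := by
  split_ifs
  · exact rootFree_bad _ _ _ _ _ _
  · exact rootFree_univ _

lemma allKids_mono {d : ℕ} {X Y : Set (Env d)} (h : X ⊆ Y) : allKids X ⊆ allKids Y :=
  fun _ h' i hi => h (h' i hi)

lemma nol_mono (s : ℤ) : Monotone (nol s) := by
  refine monotone_nat_of_le_succ fun n => ?_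
  induction n with
  | zero => exact Set.empty_subset _
  | succ n ih => exact allKids_mono (mix_mono ih le_rfl)

lemma bad_mono (s : ℤ) (k c : ℕ) : Monotone (fun n => bad s k n c) := by
  refine monotone_nat_of_le_succ fun n => ?_
  induction n generalizing c with
  | zero => exact Set.empty_subset _
  | succ n ih =>
    refine allKids_mono (mix_mono (ih _) ?_)
    split_ifs
    · exact ih _
    · exact le_rfl

lemma pr_nol_succ (s : ℤ) (hs : s = 1 ∨ s = -1) (n : ℕ) :
    pr m hm (nol s (n + 1)) = ((pr m hm (nol s n) + 1) / 2) ^ m := by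
  rw [nol, pr_allKids m hm (measurableSet_mix s (measurableSet_nol s n) MeasurableSet.univ),
    pr_mix m hm s hs MeasurableSet.univ (rootFree_nol m hm s n)
    (rootFree_univ _), pr_univ]

lemma pr_bad_succ (s : ℤ) (hs : s = 1 ∨ s = -1) (k n c : ℕ) :
    pr m hm (bad s k (n + 1) c) = ((pr m hm (bad s k n (c + 1)) +
      (if k ≤ c then pr m hm (bad s k n (c - k)) else 1)) / 2) ^ m := by
  rw [bad, pr_allKids m hm (measurableSet_mix s (measurableSet_bad s k n _)
    (measurableSet_bad' s k n c)),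
    pr_mix m hm s hs (measurableSet_bad' s k n c)
      (rootFree_bad m hm s k n _) (rootFree_bad' m hm s k n c)]
  split_ifs
  · rfl
  · rw [pr_univ]

/-- For `m = 2` the probability of having a line of length `n` tends to `0`. -/
lemma pr_nol_two (s : ℤ) (hs : s = 1 ∨ s = -1) (n : ℕ) :
    1 - 4 / ((n : ℝ) + 4) ≤ pr 2 le_rfl (nol s n) := by
  induction n with
  | zero =>
    rw [nol, pr_empty]; norm_num
  | succ n ih =>
    rw [pr_nol_succ 2 le_rfl s hs]
    have hn : (0 : ℝ) ≤ n := Nat.cast_nonneg n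
    have h4 : (0 : ℝ) < (n : ℝ) + 4 := by linarith
    have h5 : (0 : ℝ) < (n : ℝ) + 5 := by linarith
    set r : ℝ := 4 / ((n : ℝ) + 4) with hr
    have hr0 : 0 < r := by positivity
    have hr1 : r ≤ 1 := by rw [hr, div_le_one h4]; linarith
    have h1 : 1 - r / 2 ≤ (pr 2 le_rfl (nol s n) + 1) / 2 := by linarith
    have h2 : (1 - r / 2) ^ 2 ≤ ((pr 2 le_rfl (nol s n) + 1) / 2) ^ 2 :=
      pow_le_pow_left₀ (by linarith) h1 2
    refine le_trans ?_ h2
    have h3 : r - r ^ 2 / 4 ≤ 4 / ((n : ℝ) + 5) := by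
      rw [hr, div_pow, le_div_iff₀ h5]
      have : (4 / ((n : ℝ) + 4) - 4 ^ 2 / ((n : ℝ) + 4) ^ 2 / 4) * ((n : ℝ) + 5) =
          4 * ((n : ℝ) + 3) * ((n : ℝ) + 5) / ((n : ℝ) + 4) ^ 2 := by
        field_simp
        ring
      rw [this, div_le_iff₀ (by positivity)]
      nlinarith
    have h6 : ((n + 1 : ℕ) : ℝ) + 4 = (n : ℝ) + 5 := by push_cast; ring
    rw [h6]
    nlinarith

/-- For `m ≥ 4` there is a line of length `n` with probability at least `1 / 2`. -/
lemma pr_nol_four (h4 : 4 ≤ m) (s : ℤ) (hs : s = 1 ∨ s = -1) (n : ℕ) :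
    pr m hm (nol s n) ≤ 1 / 2 := by
  induction n with
  | zero =>
    rw [nol, pr_empty]; norm_num
  | succ n ih =>
    rw [pr_nol_succ m hm s hs]
    have h0 := pr_nonneg m hm (nol s n)
    calc ((pr m hm (nol s n) + 1) / 2) ^ m ≤ ((pr m hm (nol s n) + 1) / 2) ^ 4 :=
          pow_le_pow_of_le_one (by linarith) (by linarith) h4
      _ ≤ (3 / 4) ^ 4 := pow_le_pow_left₀ (by linarith) (by linarith) 4
      _ ≤ 1 / 2 := by norm_num

/-- Lines with credit survive with probability bounded below. -/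
lemma pr_bad_le (s : ℤ) (hs : s = 1 ∨ s = -1) (k n c : ℕ) :
    pr m hm (bad s k n c) ≤ 1 - (1 / ((k : ℝ) + 2) ^ 2) * (min (c + 1) (k + 1) : ℕ) := by
  have hk : (0 : ℝ) ≤ k := Nat.cast_nonneg k
  set ε : ℝ := 1 / ((k : ℝ) + 2) ^ 2 with hε
  have hε0 : 0 < ε := by positivity
  have hε1 : ε * ((k : ℝ) + 2) ^ 2 = 1 := by rw [hε]; field_simp
  induction n generalizing c with
  | zero =>
    rw [bad, pr_empty]
    have h1 : ((min (c + 1) (k + 1) : ℕ) : ℝ) ≤ (k : ℝ) + 1 := by
      have : min (c + 1) (k + 1) ≤ k + 1 := min_le_right _ _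
      exact_mod_cast this
    have : ε * (min (c + 1) (k + 1) : ℕ) ≤ ε * ((k : ℝ) + 2) ^ 2 := by
      refine mul_le_mul_of_nonneg_left ?_ hε0.le
      nlinarith
    linarith
  | succ n ih =>
    rw [pr_bad_succ m hm s hs]
    set f : ℝ := ((min (c + 1) (k + 1) : ℕ) : ℝ) with hf
    have hf0 : 0 ≤ f := Nat.cast_nonneg _
    have hf1 : f ≤ (k : ℝ) + 1 := by
      have : min (c + 1) (k + 1) ≤ k + 1 := min_le_right _ _
      rw [hf]; exact_mod_cast this
    set y : ℝ := (pr m hm (bad s k n (c + 1)) +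
      (if k ≤ c then pr m hm (bad s k n (c - k)) else 1)) / 2 with hy
    have hy0 : 0 ≤ y := by
      rw [hy]
      have h1 := pr_nonneg m hm (bad s k n (c + 1))
      have h2 : 0 ≤ (if k ≤ c then pr m hm (bad s k n (c - k)) else 1) := by
        split_ifs
        · exact pr_nonneg m hm _
        · norm_num
      linarith
    have hy1 : y ≤ 1 - ε * (f + 1) / 2 := by
      have h1 := ih (c + 1)
      rw [hy]
      split_ifs with hkc
      · have h2 := ih (c - k)
        have e1 : ((min (c + 1 + 1) (k + 1) : ℕ) : ℝ) = (k : ℝ) + 1 := by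
          rw [min_eq_right (by omega)]; push_cast; ring
        have e2 : f = (k : ℝ) + 1 := by
          rw [hf, min_eq_right (by omega)]; push_cast; ring
        have e3 : (1 : ℝ) ≤ ((min (c - k + 1) (k + 1) : ℕ) : ℝ) := by
          have : 1 ≤ min (c - k + 1) (k + 1) := by omega
          exact_mod_cast this
        rw [e1] at h1
        rw [e2]
        nlinarith
      · have e1 : ((min (c + 1 + 1) (k + 1) : ℕ) : ℝ) = (c : ℝ) + 2 := by
          rw [min_eq_left (by omega)]; push_cast; ring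
        have e2 : f = (c : ℝ) + 1 := by
          rw [hf, min_eq_left (by omega)]; push_cast; ring
        rw [e1] at h1
        rw [e2]
        nlinarith
    have hy2 : y ≤ 1 := by nlinarith
    calc y ^ m ≤ y ^ 2 := pow_le_pow_of_le_one hy0 hy2 hm
      _ ≤ (1 - ε * (f + 1) / 2) ^ 2 := pow_le_pow_left₀ hy0 hy1 2
      _ ≤ 1 - ε * f := by
        have h1 : (f + 1) ^ 2 ≤ ((k : ℝ) + 2) ^ 2 := by nlinarith
        have h2 : ε * (f + 1) ^ 2 ≤ 1 :=
          (mul_le_mul_of_nonneg_left h1 hε0.le).trans_eq hε1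
        have h3 : ε * (ε * (f + 1) ^ 2) ≤ ε * 1 := mul_le_mul_of_nonneg_left h2 hε0.le
        nlinarith

end Prob

end Pool.Agent.BRW
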