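import Mathlib
import Pool.Agent.BRW.Lines

open MeasureTheory ProbabilityTheory Filter Topology
open scoped ENNReal Pointwise

namespace Pool.Agent.BRW

variable (m : ℕ) (hm : 2 ≤ m)

lemma pr_mono {X Y : Set (Env 1)} (h : X ⊆ Y) : pr m hm X ≤ pr m hm Y :=
  ENNReal.toReal_mono (measure_ne_top _ _) (measure_mono h)

lemma pr_compl {X : Set (Env 1)} (hX : MeasurableSet X) : pr m hm Xᶜ = 1 - pr m hm X := by
  rw [pr, prob_compl_eq_one_sub hX, ENNReal.toReal_sub_of_le prob_le_one ENNReal.one_ne_top]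
  rfl

/-- Zero-one trick: an event of positive probability is seen from some living particle. -/
lemma ae_seen {X : Set (Env 1)} (hX : MeasurableSet X) (h0 : 0 < pr m hm X) :
    ∀ᵐ ω ∂(envLaw (walkLaw m hm)), ∃ v, Alive ω v ∧ subAt ω v ∈ X := by
  have h1 : pr m hm (never X) ≤ pr m hm (never X) ^ m := by
    rw [← pr_allKids m hm (measurableSet_never hX)]
    exact pr_mono m hm (never_subset X)
  have h2 : pr m hm (never X) ≤ 1 - pr m hm X := by
    rw [← pr_compl m hm hX]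
    exact pr_mono m hm (never_subset_compl X)
  set a := pr m hm (never X) with ha
  have ha0 : 0 ≤ a := pr_nonneg m hm _
  have ha1 : a < 1 := by linarith
  have h3 : a ≤ a ^ 2 := h1.trans (pow_le_pow_of_le_one ha0 ha1.le hm)
  have h4 : a = 0 := by
    by_contra hne
    have hpos : 0 < a := lt_of_le_of_ne ha0 (Ne.symm hne)
    nlinarith
  have h5 : envLaw (walkLaw m hm) (never X) = 0 := by
    rw [ha, pr, ENNReal.toReal_eq_zero_iff] at h4
    rcases h4 with h | h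
    · exact h
    · exact absurd h (measure_ne_top _ _)
  rw [ae_iff]
  refine measure_mono_null ?_ h5
  intro ω h v hv hX'
  exact h ⟨v, hv, hX'⟩

lemma ae_disp : ∀ᵐ ω ∂(envLaw (walkLaw m hm)), ∀ v, (ω v).2 0 = 1 ∨ (ω v).2 0 = -1 := by
  rw [ae_all_iff]
  intro v
  have hp : MeasurePreserving (fun ω : Env 1 => ω v) (envLaw (walkLaw m hm))
      ((walkLaw m hm).μ.toMeasure.prod (walkLaw m hm).ν.toMeasure) :=
    measurePreserving_eval_infinitePi _ v
  have h : ∀ᵐ p ∂((walkLaw m hm).μ.toMeasure.prod (walkLaw m hm).ν.toMeasure),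
      p.2 0 = 1 ∨ p.2 0 = -1 := by
    rw [ae_iff]
    have e : {p : ℕ × (Fin 1 → ℤ) | ¬ (p.2 0 = 1 ∨ p.2 0 = -1)} =
        Set.univ ×ˢ {y : Fin 1 → ℤ | ¬ (y 0 = 1 ∨ y 0 = -1)} := by
      ext; simp
    rw [e, Measure.prod_prod, measure_univ, one_mul]
    have e2 : {y : Fin 1 → ℤ | ¬ (y 0 = 1 ∨ y 0 = -1)} =
        ({y : Fin 1 → ℤ | y 0 = 1} ∪ {y : Fin 1 → ℤ | y 0 = -1})ᶜ := by
      ext; simp
    rw [e2, prob_compl_eq_one_sub MeasurableSet.of_discrete, measure_union _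
      MeasurableSet.of_discrete]
    · have h1 : (walkLaw m hm).ν.toMeasure {y : Fin 1 → ℤ | y 0 = 1} = 1 / 2 :=
        coin_half 1 (Or.inl rfl)
      have h2 : (walkLaw m hm).ν.toMeasure {y : Fin 1 → ℤ | y 0 = -1} = 1 / 2 :=
        coin_half (-1) (Or.inr rfl)
      rw [h1, h2, ENNReal.add_halves, tsub_self]
    · rw [Set.disjoint_left]
      intro y h1 h2
      simp only [Set.mem_ofPred_eq] at h1 h2
      omega
  exact hp.quasiMeasurePreserving.ae h

lemma ae_nol_two (s : ℤ) (hs : s = 1 ∨ s = -1) :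
    ∀ᵐ ω ∂(envLaw (walkLaw 2 le_rfl)), ∀ v, ∃ n, subAt ω v ∈ nol s n := by
  rw [ae_all_iff]
  intro v
  have key : ∀ᵐ ω ∂(envLaw (walkLaw 2 le_rfl)), ∃ n, ω ∈ nol s n := by
    rw [ae_iff]
    have hle : ∀ n : ℕ, (envLaw (walkLaw 2 le_rfl)) {ω | ¬ ∃ n, ω ∈ nol s n} ≤
        ENNReal.ofReal (4 / ((n : ℝ) + 4)) := by
      intro n
      have h1 : {ω : Env 1 | ¬ ∃ n, ω ∈ nol s n} ⊆ (nol s n)ᶜ := by
        intro ω h h'
        exact h ⟨n, h'⟩
      refine (measure_mono h1).trans ?_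
      have h2 := pr_compl 2 le_rfl (measurableSet_nol s n)
      have h3 := pr_nol_two s hs n
      have h4 : pr 2 le_rfl (nol s n)ᶜ ≤ 4 / ((n : ℝ) + 4) := by linarith
      rw [pr] at h4
      exact (ENNReal.le_ofReal_iff_toReal_le (measure_ne_top _ _) (by positivity)).2 h4
    have hlim : Tendsto (fun n : ℕ => ENNReal.ofReal (4 / ((n : ℝ) + 4))) atTop (𝓝 0) := by
      have h1 : Tendsto (fun n : ℕ => 4 / ((n : ℝ) + 4)) atTop (𝓝 0) := by
        refine Tendsto.div_atTop tendsto_const_nhds ?_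
        exact tendsto_atTop_add_const_right _ _ tendsto_natCast_atTop_atTop
      have h2 := ENNReal.tendsto_ofReal h1
      rwa [ENNReal.ofReal_zero] at h2
    exact le_antisymm (ge_of_tendsto' hlim hle) (by simp)
  exact (measurePreserving_subAt (walkLaw 2 le_rfl) v).quasiMeasurePreserving.ae key

lemma pr_iUnion_le {S : ℕ → Set (Env 1)} (hS : Monotone S) {b : ℝ}
    (h : ∀ n, pr m hm (S n) ≤ b) : pr m hm (⋃ n, S n) ≤ b := by
  have hb : 0 ≤ b := (pr_nonneg m hm _).trans (h 0)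
  rw [pr, hS.measure_iUnion]
  refine ENNReal.toReal_le_of_le_ofReal hb (iSup_le fun n => ?_)
  exact (ENNReal.le_ofReal_iff_toReal_le (measure_ne_top _ _) hb).2 (h n)

lemma ae_line_four (h4 : 4 ≤ m) (s : ℤ) (hs : s = 1 ∨ s = -1) :
    ∀ᵐ ω ∂(envLaw (walkLaw m hm)), ∃ v, Alive ω v ∧ ∀ n, subAt ω v ∉ nol s n := by
  have hmeas : MeasurableSet (⋃ n, nol s n) :=
    MeasurableSet.iUnion fun n => measurableSet_nol s n
  have h1 := pr_iUnion_le m hm (nol_mono s) (pr_nol_four m hm h4 s hs)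
  have h2 : 0 < pr m hm (⋃ n, nol s n)ᶜ := by
    rw [pr_compl m hm hmeas]; linarith
  filter_upwards [ae_seen m hm hmeas.compl h2] with ω ⟨v, hv, h⟩
  refine ⟨v, hv, fun n hn => h (Set.mem_iUnion.2 ⟨n, hn⟩)⟩

lemma ae_credit (s : ℤ) (hs : s = 1 ∨ s = -1) :
    ∀ᵐ ω ∂(envLaw (walkLaw m hm)), ∀ k : ℕ, ∃ v, Alive ω v ∧ ∀ n, subAt ω v ∉ bad s k n 0 := by
  rw [ae_all_iff]
  intro k
  have hmeas : MeasurableSet (⋃ n, bad s k n 0) :=
    MeasurableSet.iUnion fun n => measurableSet_bad s k n 0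
  have hk : (0 : ℝ) ≤ k := Nat.cast_nonneg k
  have hb : ∀ n, pr m hm (bad s k n 0) ≤ 1 - (1 / ((k : ℝ) + 2) ^ 2) := by
    intro n
    have h1 := pr_bad_le m hm s hs k n 0
    have e : min (0 + 1) (k + 1) = 1 := by omega
    rw [e] at h1
    simpa using h1
  have h1 := pr_iUnion_le m hm (bad_mono s k 0) hb
  have h2 : 0 < pr m hm (⋃ n, bad s k n 0)ᶜ := by
    rw [pr_compl m hm hmeas]
    have : 0 < 1 / ((k : ℝ) + 2) ^ 2 := by positivity
    linarith
  filter_upwards [ae_seen m hm hmeas.compl h2] with ω ⟨v, hv, h⟩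
  refine ⟨v, hv, fun n hn => h (Set.mem_iUnion.2 ⟨n, hn⟩)⟩

end Pool.Agent.BRW
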