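import Mathlib
import Pool.Agent.BRW.AlmostSure

open MeasureTheory ProbabilityTheory Filter Topology
open scoped ENNReal Pointwise

namespace Pool.Agent.BRW

/-- The number of moves different from `s` on the path to `v`. -/
def cnt (s : ℤ) : Env 1 → List ℕ → ℕ
  | _, [] => 0
  | ω, i :: v => (if (ω [i]).2 0 = s then 0 else 1) + cnt s (sub ω i) v

/-- All displacements are unit vectors. -/
def Unitary (ω : Env 1) : Prop := ∀ v, (ω v).2 0 = 1 ∨ (ω v).2 0 = -1

lemma Unitary.sub {ω : Env 1} (h : Unitary ω) (i : ℕ) : Unitary (sub ω i) :=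
  fun v => h (i :: v)

lemma Unitary.subAt {ω : Env 1} (h : Unitary ω) (v : List ℕ) : Unitary (subAt ω v) :=
  fun w => h (v ++ w)

lemma cnt_le (s : ℤ) (ω : Env 1) (v : List ℕ) : cnt s ω v ≤ v.length := by
  induction v generalizing ω with
  | nil => simp [cnt]
  | cons i v ih =>
    have := ih (sub ω i)
    rw [cnt, List.length_cons]
    split_ifs <;> omega

lemma pos_eq (s : ℤ) (hs : s = 1 ∨ s = -1) {ω : Env 1} (h : Unitary ω) (x : Fin 1 → ℤ)
    (v : List ℕ) : pos ω x v 0 = x 0 + s * ((v.length : ℤ) - 2 * (cnt s ω v : ℤ)) := by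
  induction v generalizing ω x with
  | nil => simp [cnt, pos]
  | cons i v ih =>
    have h1 : pos ω x (i :: v) 0 = pos (sub ω i) (x + (ω [i]).2) v 0 := rfl
    rw [h1, ih (h.sub i), cnt, List.length_cons, Pi.add_apply]
    rcases h [i] with h2 | h2 <;> rcases hs with rfl | rfl <;> rw [h2] <;>
      norm_num <;> ring

lemma cnt_append (s : ℤ) (ω : Env 1) (v w : List ℕ) :
    cnt s ω (v ++ w) = cnt s ω v + cnt s (subAt ω v) w := by
  induction v generalizing ω with
  | nil => simp only [List.nil_append, cnt, zero_add]; rfl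
  | cons i v ih =>
    have h1 : cnt s ω (i :: v ++ w) =
      (if (ω [i]).2 0 = s then 0 else 1) + cnt s (sub ω i) (v ++ w) := rfl
    have h2 : cnt s ω (i :: v) = (if (ω [i]).2 0 = s then 0 else 1) + cnt s (sub ω i) v := rfl
    rw [h1, h2, ih, add_assoc]
    rfl

lemma exists_of_notMem_nol (s : ℤ) (n : ℕ) (ω : Env 1) (h : ω ∉ nol s n) :
    ∃ v, v.length = n ∧ Alive ω v ∧ cnt s ω v = 0 := by
  induction n generalizing ω with
  | zero => exact ⟨[], rfl, trivial, rfl⟩
  | succ n ih =>
    have h1 : ∃ i < (ω []).1, sub ω i ∉ mix s (nol s n) Set.univ := by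
      by_contra hcon
      push Not at hcon
      exact h hcon
    obtain ⟨i, hi, h2⟩ := h1
    have h3 : (ω [i]).2 0 = s ∧ sub ω i ∉ nol s n := by
      by_contra hcon
      apply h2
      refine ⟨fun h' => ?_, fun _ => trivial⟩
      by_contra h''
      exact hcon ⟨h', h''⟩
    obtain ⟨v, hv1, hv2, hv3⟩ := ih _ h3.2
    refine ⟨i :: v, by simp [hv1], ⟨hi, hv2⟩, ?_⟩
    rw [cnt, if_pos h3.1, hv3]

lemma exists_of_notMem_bad (s : ℤ) (k n c : ℕ) (ω : Env 1) (h : ω ∉ bad s k n c) :
    ∃ v, v.length = n ∧ Alive ω v ∧ (k + 1) * cnt s ω v ≤ c + n := by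
  induction n generalizing ω c with
  | zero => exact ⟨[], rfl, trivial, by simp [cnt]⟩
  | succ n ih =>
    have h1 : ∃ i < (ω []).1, sub ω i ∉ mix s (bad s k n (c + 1))
        (if k ≤ c then bad s k n (c - k) else Set.univ) := by
      by_contra hcon
      push Not at hcon
      exact h hcon
    obtain ⟨i, hi, h2⟩ := h1
    by_cases h3 : (ω [i]).2 0 = s
    · have h4 : sub ω i ∉ bad s k n (c + 1) := by
        intro h'
        exact h2 ⟨fun _ => h', fun h'' => absurd h3 h''⟩
      obtain ⟨v, hv1, hv2, hv3⟩ := ih (c + 1) _ h4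
      refine ⟨i :: v, by simp [hv1], ⟨hi, hv2⟩, ?_⟩
      rw [cnt, if_pos h3, zero_add]
      omega
    · have h4 : sub ω i ∉ (if k ≤ c then bad s k n (c - k) else Set.univ) := by
        intro h'
        exact h2 ⟨fun h'' => absurd h'' h3, fun _ => h'⟩
      split_ifs at h4 with hk
      · obtain ⟨v, hv1, hv2, hv3⟩ := ih (c - k) _ h4
        refine ⟨i :: v, by simp [hv1], ⟨hi, hv2⟩, ?_⟩
        rw [cnt, if_neg h3, mul_add]
        omega
      · exact absurd trivial h4

/-- If from every label there is no infinite line, then eventually every living particle has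
made many moves different from `s`. -/
lemma cnt_large (s : ℤ) (c : ℕ) (ω : Env 1) (h : ∀ v, ∃ n, subAt ω v ∈ nol s n) :
    ∃ N : ℕ, ∀ v, Alive ω v → N ≤ v.length → c ≤ cnt s ω v := by
  induction c generalizing ω with
  | zero => exact ⟨0, fun _ _ _ => Nat.zero_le _⟩
  | succ c ihc =>
    obtain ⟨n, hn⟩ := h []
    have hn' : ω ∈ nol s n := hn
    clear hn
    induction n generalizing ω with
    | zero => exact absurd hn' (Set.notMem_empty _)
    | succ n ihn =>
      have step : ∀ i, i < (ω []).1 → ∃ N : ℕ, ∀ v, Alive (sub ω i) v → N ≤ v.length →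
          c + 1 ≤ (if (ω [i]).2 0 = s then 0 else 1) + cnt s (sub ω i) v := by
        intro i hi
        have hsub : ∀ v, ∃ n, subAt (sub ω i) v ∈ nol s n := fun v => h (i :: v)
        by_cases h3 : (ω [i]).2 0 = s
        · have h4 : sub ω i ∈ nol s n := (hn' i hi).1 h3
          obtain ⟨N, hN⟩ := ihn (sub ω i) hsub h4
          refine ⟨N, fun v hv hl => ?_⟩
          rw [if_pos h3, zero_add]
          exact hN v hv hl
        · obtain ⟨N, hN⟩ := ihc (sub ω i) hsub
          refine ⟨N, fun v hv hl => ?_⟩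
          rw [if_neg h3]
          have := hN v hv hl
          omega
      choose! N hN using step
      refine ⟨(Finset.range (ω []).1).sup N + 1, fun v hv hl => ?_⟩
      cases v with
      | nil => simp at hl
      | cons i v =>
        have hi : i < (ω []).1 := hv.1
        have h5 : N i ≤ (Finset.range (ω []).1).sup N := Finset.le_sup (Finset.mem_range.2 hi)
        rw [List.length_cons] at hl
        exact hN i hi v hv.2 (by omega)

/-- Discrete intermediate value property of paths. -/
lemma path_ivt (v : List ℕ) (ω : Env 1) (hω : Unitary ω) (x : Fin 1 → ℤ) (hv : Alive ω v)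
    (y : ℤ) (hy : (x 0 ≤ y ∧ y ≤ pos ω x v 0) ∨ (pos ω x v 0 ≤ y ∧ y ≤ x 0)) :
    ∃ u : List ℕ, u.length ≤ v.length ∧ Alive ω u ∧ pos ω x u 0 = y := by
  induction v generalizing ω x with
  | nil =>
    refine ⟨[], le_rfl, trivial, ?_⟩
    simp only [pos] at hy ⊢
    omega
  | cons i v ih =>
    by_cases hxy : y = x 0
    · exact ⟨[], by simp, trivial, hxy.symm⟩
    · have h1 : pos ω x (i :: v) 0 = pos (sub ω i) (x + (ω [i]).2) v 0 := rfl
      rw [h1] at hy
      have h2 : (x + (ω [i]).2) 0 = x 0 + (ω [i]).2 0 := rfl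
      obtain ⟨u, hu1, hu2, hu3⟩ := ih (sub ω i) (hω.sub i) (x + (ω [i]).2) hv.2 (by
        rw [h2]
        rcases hω [i] with h3 | h3 <;> rw [h3] <;> omega)
      exact ⟨i :: u, by simpa using hu1, ⟨hv.1, hu2⟩, hu3⟩

end Pool.Agent.BRW
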