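import Mathlib
import Pool.Agent.BRW.Paths

open MeasureTheory ProbabilityTheory Filter Topology
open scoped ENNReal Pointwise

namespace Pool.Agent.BRW

/-- The front moves at speed one. -/
lemma front (s : ℤ) (hs : s = 1 ∨ s = -1) {ω : Env 1} (hω : Unitary ω)
    (h : ∀ k : ℕ, ∃ v, Alive ω v ∧ ∀ n, subAt ω v ∉ bad s k n 0) (δ : ℝ) (hδ : 0 < δ) :
    ∃ N0 : ℕ, ∀ N : ℕ, N0 ≤ N → ∃ v : List ℕ, v.length ≤ N ∧ Alive ω v ∧
      (1 - δ) * N + 1 ≤ ((s * pos ω 0 v 0 : ℤ) : ℝ) := by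
  obtain ⟨k, hk⟩ := exists_nat_ge (4 / δ)
  obtain ⟨v, hv, hbad⟩ := h k
  obtain ⟨N1, hN1⟩ := exists_nat_ge ((4 * (v.length : ℝ) + 2) / δ)
  refine ⟨max N1 v.length, fun N hN => ?_⟩
  have hNv : v.length ≤ N := (le_max_right _ _).trans hN
  have hN1' : N1 ≤ N := (le_max_left _ _).trans hN
  obtain ⟨w, hw1, hw2, hw3⟩ := exists_of_notMem_bad s k (N - v.length) 0 _ (hbad (N - v.length))
  refine ⟨v ++ w, ?_, ?_, ?_⟩
  · rw [List.length_append, hw1]; omega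
  · rw [alive_append]; exact ⟨hv, hw2⟩
  · rw [pos_eq s hs hω, cnt_append, List.length_append, hw1]
    have hss : s * s = 1 := by rcases hs with rfl | rfl <;> norm_num
    have h1 := cnt_le s ω v
    have h2 : (v.length + (N - v.length) : ℕ) = N := by omega
    rw [h2]
    have h3 : s * ((0 : Fin 1 → ℤ) 0 + s * ((N : ℤ) - 2 * ((cnt s ω v + cnt s (subAt ω v) w : ℕ) : ℤ))) =
        (N : ℤ) - 2 * ((cnt s ω v + cnt s (subAt ω v) w : ℕ) : ℤ) := by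
      rw [Pi.zero_apply, zero_add, ← mul_assoc, hss, one_mul]
    rw [h3]
    push_cast
    have hc1 : (cnt s ω v : ℝ) ≤ v.length := by exact_mod_cast h1
    have hc2 : ((k : ℝ) + 1) * (cnt s (subAt ω v) w : ℝ) ≤ N := by
      have : (k + 1) * cnt s (subAt ω v) w ≤ N := by omega
      exact_mod_cast this
    have hk1 : 4 ≤ ((k : ℝ) + 1) * δ := by
      have : 4 ≤ (k : ℝ) * δ := by
        rw [div_le_iff₀ hδ] at hk; exact hk
      nlinarith
    have hN2 : 4 * (v.length : ℝ) + 2 ≤ (N : ℝ) * δ := by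
      have h5 : (N1 : ℝ) ≤ N := by exact_mod_cast hN1'
      rw [div_le_iff₀ hδ] at hN1
      nlinarith
    have hN0 : (0 : ℝ) ≤ N := Nat.cast_nonneg N
    -- 4 * cnt ≤ (k+1) δ cnt ≤ δ N
    have hcc : (0 : ℝ) ≤ (cnt s (subAt ω v) w : ℝ) := Nat.cast_nonneg _
    have h6 : 4 * (cnt s (subAt ω v) w : ℝ) ≤ δ * N := by
      calc 4 * (cnt s (subAt ω v) w : ℝ) ≤ (((k : ℝ) + 1) * δ) * (cnt s (subAt ω v) w : ℝ) :=
            mul_le_mul_of_nonneg_right hk1 hcc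
        _ = δ * (((k : ℝ) + 1) * (cnt s (subAt ω v) w : ℝ)) := by ring
        _ ≤ δ * N := mul_le_mul_of_nonneg_left hc2 hδ.le
    nlinarith

/-- The common shape: the segment `[-1, 1]`. -/
def seg : Set (Fin 1 → ℝ) := {z | |z 0| ≤ 1}

lemma seg_eq : seg = Metric.closedBall (0 : Fin 1 → ℝ) 1 := by
  ext z
  rw [mem_closedBall_zero_iff, pi_norm_le_iff_of_nonneg zero_le_one]
  constructor
  · intro h i
    have : i = 0 := Subsingleton.elim _ _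
    rw [this, Real.norm_eq_abs]; exact h
  · intro h
    have := h 0
    rwa [Real.norm_eq_abs] at this

lemma visited_of (ω : Env 1) (v : List ℕ) (hv : Alive ω v) (N : ℕ) (hN : v.length ≤ N)
    (x : Fin 1 → ℤ) (hx : pos ω 0 v 0 = x 0) : x ∈ visited ω 0 N := by
  refine ⟨v.length, hN, v, rfl, hv, ?_⟩
  funext i
  have : i = 0 := Subsingleton.elim _ _
  rw [this]; exact hx

lemma abs_pos_le {ω : Env 1} (hω : Unitary ω) (x : Fin 1 → ℤ) (v : List ℕ) :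
    |pos ω x v 0 - x 0| ≤ v.length := by
  have h1 := pos_eq 1 (Or.inl rfl) hω x v
  have h2 := cnt_le 1 ω v
  rw [h1, abs_le]
  constructor <;> omega

lemma shape_det {ω : Env 1} (hω : Unitary ω)
    (h1 : ∀ k : ℕ, ∃ v, Alive ω v ∧ ∀ n, subAt ω v ∉ bad 1 k n 0)
    (h2 : ∀ k : ℕ, ∃ v, Alive ω v ∧ ∀ n, subAt ω v ∉ bad (-1) k n 0) (ε : ℝ) (hε : 0 < ε)
    (hε1 : ε < 1) :
    ∀ᶠ n : ℕ in atTop,
      (1 - ε) • seg ⊆ (n : ℝ)⁻¹ • filled ω n ∧ (n : ℝ)⁻¹ • filled ω n ⊆ (1 + ε) • seg := by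
  obtain ⟨N1, hN1⟩ := front 1 (Or.inl rfl) hω h1 ε hε
  obtain ⟨N2, hN2⟩ := front (-1) (Or.inr rfl) hω h2 ε hε
  obtain ⟨N3, hN3⟩ := exists_nat_ge (1 / ε)
  filter_upwards [eventually_ge_atTop (max (max N1 N2) (max N3 1))] with N hN
  have hNN1 : N1 ≤ N := by omega
  have hNN2 : N2 ≤ N := by omega
  have hNN3 : N3 ≤ N := by omega
  have hN1' : 1 ≤ N := by omega
  have hNpos : (0 : ℝ) < N := by exact_mod_cast hN1'
  have hNε : 1 ≤ (N : ℝ) * ε := by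
    rw [div_le_iff₀ hε] at hN3
    have : (N3 : ℝ) ≤ N := by exact_mod_cast hNN3
    nlinarith
  constructor
  · rintro _ ⟨z, hz, rfl⟩
    have hz' : |z 0| ≤ 1 := hz
    set q : ℝ := (1 - ε) * z 0 * N with hq
    have hqabs : |q| ≤ (1 - ε) * N := by
      rw [hq, abs_mul, abs_mul, abs_of_pos hNpos, abs_of_pos (by linarith : 0 < 1 - ε)]
      have : (1 - ε) * |z 0| ≤ (1 - ε) * 1 := mul_le_mul_of_nonneg_left hz' (by linarith)
      nlinarith
    rw [abs_le] at hqabs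
    set x : ℤ := ⌈q - 1 / 2⌉ with hx
    have hx1 : q - 1 / 2 ≤ x := Int.le_ceil _
    have hx2 : (x : ℝ) < q - 1 / 2 + 1 := Int.ceil_lt_add_one _
    refine Set.mem_smul_set.2 ⟨fun _ => q, ⟨fun _ => x, ?_, fun i => ⟨by linarith, by linarith⟩⟩, ?_⟩
    · by_cases hx0 : 0 ≤ x
      · obtain ⟨v, hv1, hv2, hv3⟩ := hN1 N hNN1
        rw [one_mul] at hv3
        have h5 : (x : ℝ) ≤ (pos ω 0 v 0 : ℤ) := by linarith
        have h6 : x ≤ pos ω 0 v 0 := by exact_mod_cast h5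
        obtain ⟨u, hu1, hu2, hu3⟩ := path_ivt v ω hω 0 hv2 x (Or.inl ⟨hx0, h6⟩)
        exact visited_of ω u hu2 N (hu1.trans hv1) _ hu3
      · obtain ⟨v, hv1, hv2, hv3⟩ := hN2 N hNN2
        have hv4 : (1 - ε) * N + 1 ≤ -((pos ω 0 v 0 : ℤ) : ℝ) := by
          have : ((-1 * pos ω 0 v 0 : ℤ) : ℝ) = -((pos ω 0 v 0 : ℤ) : ℝ) := by push_cast; ring
          rwa [this] at hv3
        have h5 : ((pos ω 0 v 0 : ℤ) : ℝ) ≤ x := by linarith
        have h6 : pos ω 0 v 0 ≤ x := by exact_mod_cast h5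
        obtain ⟨u, hu1, hu2, hu3⟩ := path_ivt v ω hω 0 hv2 x (Or.inr ⟨h6, by
          show x ≤ 0
          omega⟩)
        exact visited_of ω u hu2 N (hu1.trans hv1) _ hu3
    · funext i
      have : i = 0 := Subsingleton.elim _ _
      rw [this]
      simp only [Pi.smul_apply, smul_eq_mul]
      rw [hq]
      field_simp
  · rintro _ ⟨y, ⟨x, ⟨t, ht, v, hv1, hv2, hv3⟩, hy⟩, rfl⟩
    have h3 := abs_pos_le hω 0 v
    rw [hv3, hv1] at h3
    have h4 : |((x 0 : ℤ) : ℝ)| ≤ N := by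
      have : |x 0| ≤ (N : ℤ) := by
        have h5 : ((0 : Fin 1 → ℤ) 0) = 0 := rfl
        rw [h5, sub_zero] at h3
        exact h3.trans (by exact_mod_cast ht)
      exact_mod_cast this
    rw [abs_le] at h4
    obtain ⟨hy1, hy2⟩ := hy 0
    have h1ε : (0 : ℝ) < 1 + ε := by linarith
    refine Set.mem_smul_set.2 ⟨(1 + ε)⁻¹ • (N : ℝ)⁻¹ • y, ?_, ?_⟩
    · show |((1 + ε)⁻¹ • (N : ℝ)⁻¹ • y) 0| ≤ 1
      simp only [Pi.smul_apply, smul_eq_mul]
      rw [abs_mul, abs_mul, abs_of_pos (inv_pos.2 h1ε), abs_of_pos (inv_pos.2 hNpos)]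
      have h5 : |y 0| ≤ (1 + ε) * N := by
        rw [abs_le]; constructor <;> nlinarith
      calc (1 + ε)⁻¹ * ((N : ℝ)⁻¹ * |y 0|) ≤ (1 + ε)⁻¹ * ((N : ℝ)⁻¹ * ((1 + ε) * N)) := by gcongr
        _ = 1 := by field_simp
    · rw [smul_smul, mul_inv_cancel₀ h1ε.ne', one_smul]

theorem isShape_walkLaw (m : ℕ) (hm : 2 ≤ m) : IsShape (walkLaw m hm) seg := by
  refine ⟨?_, ?_, ?_, ?_⟩
  · rw [seg_eq]; exact convex_closedBall _ _
  · rw [seg_eq]; exact isCompact_closedBall _ _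
  · rw [seg_eq]
    exact Metric.ball_subset_interior_closedBall (Metric.mem_ball_self one_pos)
  · filter_upwards [ae_disp m hm, ae_credit m hm 1 (Or.inl rfl), ae_credit m hm (-1) (Or.inr rfl)]
      with ω h1 h2 h3 ε hε hε1
    exact shape_det h1 h2 h3 ε hε hε1

end Pool.Agent.BRW
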